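import Pool.Agent.Q9.ThinSimple

/-!
# Thin decompositions of simple Lie algebras in characteristic two

Every thin decomposition of a simple Lie algebra of dimension greater than `3` has a proper graded
simple subalgebra; there is even one which is the sum of three weight spaces.
-/

namespace Pool.Agent.Results.MP_9adac4_al.GradedSimpleLine

open Q9.Thin Module

/-- Q1, positive answer: for every thin decomposition of a simple Lie algebra `L` with
`dim L > 3` over a perfect field of characteristic `2` there are distinct non-zero weights
`α`, `β` such that the sum of the three weight spaces for `α`, `β`, `α + β` is a proper simple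
subalgebra of `L`. -/
theorem result (K : Type*) [Field K] [CharP K 2] [PerfectField K]
    (L : Type*) [LieRing L] [LieAlgebra K L] [FiniteDimensional K L] [LieAlgebra.IsSimple K L]
    (n : ℕ) (hdim : finrank K L = 2 ^ n - 1) (hL : 3 < finrank K L)
    (hrank : AbsoluteToralRank K L n) (D : ThinDecomposition K L n) :
    ∃ (α β : Fin n → ZMod 2) (M : LieSubalgebra K L), α ≠ 0 ∧ β ≠ 0 ∧ α ≠ β ∧
      M.toSubmodule = ⨆ γ ∈ ({α, β, α + β} : Set (Fin n → ZMod 2)), D.space γ ∧
      M ≠ ⊤ ∧ LieAlgebra.IsSimple K M := by
  have hn : 1 ≤ n := by
    rcases Nat.eq_zero_or_pos n with rfl | h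
    · rw [hdim] at hL; simp at hL
    · exact h
  exact exists_simple hn hL hrank D

end Pool.Agent.Results.MP_9adac4_al.GradedSimpleLine
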